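import Pool.Agent.helper76.FP.Spec

/-!
# Project FP (MP_bf63dc_nt), row CLV: cliques for random places, one type for every coordinate (helper23)
-/

set_option autoImplicit false

namespace Pool.Agent.FP

open Finset
open Pool.Agent.FR (mean)
open Pool.Agent.AT (Qk Pair Adm Many PRT)
open Pool.Agent.HF (Om TC CLZ_J CLZ_adm)
open Pool.Agent.DP (Fm PrE CORE2_stmt)

theorem CLV : CLV_stmt := by
  classical
  intro hQ c n sl η hc hn hη hsl
  have hk : 1 ≤ n * c := Nat.mul_pos hn hc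
  obtain ⟨C, δ, hC, hδ, -, hQ⟩ := hQ (n * c) hk
  obtain ⟨X₀, hX₀⟩ : ∃ X₀ : ℕ, ∀ X : ℕ, X₀ ≤ X → C * (X : ℝ) ^ (-δ) ≤ η := by
    have h1 : Filter.Tendsto (fun X : ℕ => C * (X : ℝ) ^ (-δ)) Filter.atTop (nhds (C * 0)) :=
      ((tendsto_rpow_neg_atTop hδ).comp tendsto_natCast_atTop_atTop).const_mul C
    rw [mul_zero] at h1
    exact Filter.eventually_atTop.1 ((h1.eventually (gt_mem_nhds hη)).mono fun X h => h.le)
  refine ⟨max X₀ 1, le_max_right _ _, ?_⟩
  intro D hD hD1 hD2 X D' h hX hD' hDD hh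
  have hX1 : 1 ≤ X := (le_max_right _ _).trans hX
  have hXη := hX₀ X ((le_max_left _ _).trans hX)
  have hD0 : (D' : ℤ) ≠ 0 := by exact_mod_cast (by omega : D' ≠ 0)
  obtain ⟨σ, hσ⟩ : ∃ σ : Fin (n * c) ≃ Fin n × Fin c, σ = finProdFinEquiv.symm := ⟨_, rfl⟩
  obtain ⟨F, hFdef⟩ : ∃ F : Fin (n * c) → Finset (ℕ × ℤ), F = fun i => (univ : Finset (Fin X)).image (fun u : Fin X => (sl (σ i).2, h (σ i).2 + (D' : ℤ) * ((u : ℕ) : ℤ))) := ⟨_, rfl⟩
  have hinj : ∀ (a : ℤ) (s : ℕ) (u v : Fin X), (s, a + (D' : ℤ) * ((u : ℕ) : ℤ)) = (s, a + (D' : ℤ) * ((v : ℕ) : ℤ)) → u = v := by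
    intro a s u v huv
    have h1 := congrArg Prod.snd huv
    dsimp only at h1
    have h2 := mul_left_cancel₀ hD0 (add_left_cancel h1)
    exact Fin.ext (by exact_mod_cast h2)
  have hF : ∀ i, #(F i) = X := by
    intro i
    rw [hFdef]
    dsimp only
    rw [Finset.card_image_of_injective _ (fun u v h => hinj _ _ u v h), card_univ, Fintype.card_fin]
  have h1 := hQ F X hX1 (fun i => (hF i).ge) (by
    intro i x hx
    rw [hFdef] at hx
    obtain ⟨u, -, rfl⟩ := Finset.mem_image.1 hx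
    exact hsl _)
  obtain ⟨f, hf⟩ : ∃ f : Om n c X → Fin (n * c) → ℕ × ℤ, f = fun ω i => (sl (σ i).2, h (σ i).2 + (D' : ℤ) * ((ω (σ i).1 (σ i).2 : ℕ) : ℤ)) := ⟨_, rfl⟩
  have hadm : ∀ ω, Adm (f ω) := by
    intro ω
    refine CLZ_adm (n * c) D (f ω) ?_ (fun i => h (σ i).2) (fun i => hh _) ?_
    · intro p hp hpD
      refine ⟨?_, ?_⟩
      · by_contra hlt
        exact hpD (hD1 p hp (not_lt.1 hlt))
      · intro i hi
        rw [hf] at hi
        exact hpD (hD2 _ p hp hi)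
    · intro i
      rw [hf]
      dsimp only
      rw [add_sub_cancel_left]
      exact Dvd.dvd.mul_right (Int.natCast_dvd_natCast.2 hDD) _
  have h2 : #{ω : Om n c X | ¬ ∃ J : Finset (Fin n × Fin c), (1 / 4 + 1 / 500000 : ℝ) * ((n : ℝ) * c) ≤ #J ∧
      ∀ z ∈ J, ∀ z' ∈ J, PrE (sl z.2, h z.2 + (D' : ℤ) * ((ω z.1 z.2 : ℕ) : ℤ)) (sl z'.2, h z'.2 + (D' : ℤ) * ((ω z'.1 z'.2 : ℕ) : ℤ))} ≤
      #{f ∈ Fintype.piFinset F | Adm f ∧ ¬ Many f} := by
    refine Finset.card_le_card_of_injOn f ?_ ?_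
    · intro ω hω
      have hω' := (Finset.mem_filter.1 (Finset.mem_coe.1 hω)).2
      refine Finset.mem_coe.2 (Finset.mem_filter.2 ⟨?_, hadm ω, ?_⟩)
      · rw [Fintype.mem_piFinset]
        intro i
        rw [hFdef, hf]
        exact Finset.mem_image_of_mem _ (mem_univ (ω (σ i).1 (σ i).2))
      · intro hM
        obtain ⟨J, hJ1, hJ2⟩ := CLZ_J (n * c) (f ω) hM
        have hpair : ∀ i ∈ J, ∀ j ∈ J, f ω i ≠ f ω j → Pair (f ω i) (f ω j) := by
          intro i hi j hj hij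
          refine PRT (f ω i) (f ω j) ?_ ?_ hij ?_ (hJ2 i hi j hj)
          · rw [hf]
            exact hsl _
          · rw [hf]
            exact hsl _
          · intro p hp
            obtain ⟨m, hm⟩ := hadm ω p hp
            refine ⟨m, fun t => ?_⟩
            fin_cases t
            · exact hm i
            · exact hm j
        refine hω' ⟨J.map σ.toEmbedding, ?_, ?_⟩
        · rw [Finset.card_map]
          have h3 : ((n * c : ℕ) : ℝ) = (n : ℝ) * c := by push_cast; ring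
          rw [h3] at hJ1
          exact hJ1.le
        · intro x hx y hy
          obtain ⟨i, hi, rfl⟩ := Finset.mem_map.1 hx
          obtain ⟨j, hj, rfl⟩ := Finset.mem_map.1 hy
          have h4 := hpair i hi j hj
          by_cases he : f ω i = f ω j
          · left
            rw [hf] at he
            exact he
          · right
            have h5 := h4 he
            rw [hf] at h5
            exact h5
    · intro ω _ ω' _ h
      funext a b
      have h3 := congrFun h (σ.symm (a, b))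
      rw [hf] at h3
      dsimp only at h3
      rw [Equiv.apply_symm_apply] at h3
      exact hinj _ _ _ _ h3
  have h3 : ∏ i : Fin (n * c), (#(F i) : ℝ) = (X : ℝ) ^ (n * c) := by
    rw [Finset.prod_congr rfl (fun i _ => by rw [hF i]), Finset.prod_const, Finset.card_univ, Fintype.card_fin]
  rw [h3] at h1
  have hP : (0 : ℝ) ≤ (X : ℝ) ^ (n * c) := by positivity
  refine (Nat.cast_le.2 h2).trans (h1.trans ?_)
  calc C * (X : ℝ) ^ (n * c) * (X : ℝ) ^ (-δ) = C * (X : ℝ) ^ (-δ) * (X : ℝ) ^ (n * c) := by ring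
    _ ≤ η * (X : ℝ) ^ (n * c) := mul_le_mul_of_nonneg_right hXη hP

end Pool.Agent.FP
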